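import Pool.Agent.Helper75.KT.Main
import Pool.Agent.Helper32.KTF4
import Pool.Agent.Helper33.KTF5
import Pool.Agent.Helper85.KTQuant
import Pool.Agent.Helper28.KTAlgebra4

/-!
A simple unital AH algebra `A` and an injective, unit-preserving, positive homomorphism
`K₀(C(S⁴)) → K₀(A)` which is not induced by any unital homomorphism `C(S⁴) → A`.
-/

open Matrix

namespace Pool.Agent.Results.MP_0ce5f1_an.SimpleAHNoLift

open Pool.Agent.Helper75

/-! ### The notions of the statement -/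

/-- A projection `p = p² = p*` in a matrix algebra `M_n(A)`. -/
structure Proj (A : Type) [CStarAlgebra A] where
  /-- size -/
  n : ℕ
  /-- matrix -/
  mat : Matrix (Fin n) (Fin n) A
  idem : mat * mat = mat
  selfAdj : matᴴ = mat

/-- Murray-von Neumann equivalence: `v v* = p` and `v* v = q`. -/
def MvN {A : Type} [CStarAlgebra A] (p q : Proj A) : Prop :=
  ∃ v : Matrix (Fin p.n) (Fin q.n) A, v * vᴴ = p.mat ∧ vᴴ * v = q.mat

/-- The block matrix `diag(p, q)`. -/
def blk {A : Type} [CStarAlgebra A] {m n : ℕ} (p : Matrix (Fin m) (Fin m) A)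
    (q : Matrix (Fin n) (Fin n) A) : Matrix (Fin (m + n)) (Fin (m + n)) A :=
  (Matrix.fromBlocks p 0 0 q).submatrix finSumFinEquiv.symm finSumFinEquiv.symm

theorem blk_idem {A : Type} [CStarAlgebra A] {m n : ℕ} {p : Matrix (Fin m) (Fin m) A}
    {q : Matrix (Fin n) (Fin n) A} (hp : p * p = p) (hq : q * q = q) :
    blk p q * blk p q = blk p q := by
  rw [blk, Matrix.submatrix_mul_equiv, Matrix.fromBlocks_multiply]
  simp [hp, hq]

theorem blk_selfAdj {A : Type} [CStarAlgebra A] {m n : ℕ} {p : Matrix (Fin m) (Fin m) A}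
    {q : Matrix (Fin n) (Fin n) A} (hp : pᴴ = p) (hq : qᴴ = q) : (blk p q)ᴴ = blk p q := by
  rw [blk, Matrix.conjTranspose_submatrix, Matrix.fromBlocks_conjTranspose]
  simp [hp, hq]

/-- The block sum `p ⊕ q`. -/
def dsum {A : Type} [CStarAlgebra A] (p q : Proj A) : Proj A :=
  ⟨p.n + q.n, blk p.mat q.mat, blk_idem p.idem q.idem, blk_selfAdj p.selfAdj q.selfAdj⟩

/-- The projection `1 ∈ M_1(A)`. -/
def oneProj (A : Type) [CStarAlgebra A] : Proj A := ⟨1, 1, mul_one 1, conjTranspose_one⟩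

theorem map_idem {B A : Type} [CStarAlgebra B] [CStarAlgebra A] (φ : B →⋆ₐ[ℂ] A) (p : Proj B) :
    p.mat.map φ * p.mat.map φ = p.mat.map φ := (KT.IsPr.map φ ⟨p.idem, p.selfAdj⟩).1

theorem map_selfAdj {B A : Type} [CStarAlgebra B] [CStarAlgebra A] (φ : B →⋆ₐ[ℂ] A)
    (p : Proj B) : (p.mat.map φ)ᴴ = p.mat.map φ := (KT.IsPr.map φ ⟨p.idem, p.selfAdj⟩).2

/-- The image of a projection under a unital `*`-homomorphism, applied entrywise. -/
def Proj.map {B A : Type} [CStarAlgebra B] [CStarAlgebra A] (φ : B →⋆ₐ[ℂ] A) (p : Proj B) :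
    Proj A := ⟨p.n, p.mat.map φ, map_idem φ p, map_selfAdj φ p⟩

/-- The relations of `K₀`: `[p] = [q]` for equivalent `p`, `q`, and `[p ⊕ q] = [p] + [q]`. -/
def K0Rel (A : Type) [CStarAlgebra A] : AddSubgroup (FreeAbelianGroup (Proj A)) :=
  AddSubgroup.closure
    ({x | ∃ p q : Proj A, MvN p q ∧ x = FreeAbelianGroup.of p - FreeAbelianGroup.of q} ∪
      {x | ∃ p q : Proj A, x = FreeAbelianGroup.of (dsum p q)
        - (FreeAbelianGroup.of p + FreeAbelianGroup.of q)})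

/-- `K₀(A)`: the abelian group generated by the projections in matrix algebras over `A`, with the
relations `K0Rel`. -/
def K0 (A : Type) [CStarAlgebra A] : Type := FreeAbelianGroup (Proj A) ⧸ K0Rel A

noncomputable instance (A : Type) [CStarAlgebra A] : AddCommGroup (K0 A) :=
  (QuotientAddGroup.Quotient.addCommGroup (K0Rel A) :
    AddCommGroup (FreeAbelianGroup (Proj A) ⧸ K0Rel A))

/-- The class `[p]` in `K₀(A)`. -/
noncomputable def cls {A : Type} [CStarAlgebra A] (p : Proj A) : K0 A :=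
  (QuotientAddGroup.mk (FreeAbelianGroup.of p) : FreeAbelianGroup (Proj A) ⧸ K0Rel A)

/-- The positive cone `K₀(A)⁺`: the classes of projections in `M_k(A)`, `k ≥ 1`. -/
def K0Pos (A : Type) [CStarAlgebra A] : Set (K0 A) := {x | ∃ p : Proj A, 1 ≤ p.n ∧ x = cls p}

/-- `α : K₀(B) → K₀(A)` is an injective homomorphism of ordered groups with `α[1] = [1]`. -/
def IsUnitalOrderedEmb {B A : Type} [CStarAlgebra B] [CStarAlgebra A] (α : K0 B →+ K0 A) : Prop :=
  Function.Injective α ∧ (∀ x ∈ K0Pos B, α x ∈ K0Pos A) ∧ α (cls (oneProj B)) = cls (oneProj A)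

/-- `α = φ_*` for some unital `*`-homomorphism `φ : B → A`. -/
def IsInduced {B A : Type} [CStarAlgebra B] [CStarAlgebra A] (α : K0 B →+ K0 A) : Prop :=
  ∃ φ : B →⋆ₐ[ℂ] A, ∀ p : Proj B, α (cls p) = cls (p.map φ)

/-- `A` is simple. -/
def IsSimple (A : Type) [CStarAlgebra A] : Prop :=
  Nontrivial A ∧ ∀ I : TwoSidedIdeal A, IsClosed (I : Set A) → I = ⊥ ∨ I = ⊤

/-- `Φ : D → M` is an isomorphism of `D` onto the corner `q M q`, `q` a projection in `M`. -/
def IsOntoCorner {D M : Type} [Ring D] [StarRing D] [Algebra ℂ D] [Ring M] [StarRing M]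
    [Algebra ℂ M] (q : M) (Φ : D →⋆ₙₐ[ℂ] M) : Prop :=
  q * q = q ∧ star q = q ∧ Function.Injective Φ ∧ Set.range Φ = {b | q * b * q = b}

/-- `D` is isomorphic to a corner `q M_k(C(X)) q`, with `X` compact metrizable and `q` a
projection. -/
def IsCorner (D : Type) [Ring D] [StarRing D] [Algebra ℂ D] : Prop :=
  ∃ (X : Type) (_ : TopologicalSpace X) (k : ℕ) (q : Matrix (Fin k) (Fin k) C(X, ℂ))
    (Φ : D →⋆ₙₐ[ℂ] Matrix (Fin k) (Fin k) C(X, ℂ)),
    CompactSpace X ∧ TopologicalSpace.MetrizableSpace X ∧ IsOntoCorner q Φ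

/-- `A` is AH: the closure of the union of an increasing sequence of unital `*`-subalgebras, each
isomorphic to a corner `q M_k(C(X)) q`. -/
def IsAH (A : Type) [CStarAlgebra A] : Prop :=
  ∃ D : ℕ → StarSubalgebra ℂ A, Monotone D ∧ Dense (⋃ i, (D i : Set A)) ∧ ∀ i, IsCorner (D i)

/-- The sphere `S^m`, the unit sphere of `ℝ^{m+1}`. -/
abbrev Sph (m : ℕ) : Type := Metric.sphere (0 : EuclideanSpace ℝ (Fin (m + 1))) 1

/-- The C*-algebra `C(S^m)`. -/
def CSph (m : ℕ) : Type := C(Sph m, ℂ)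

noncomputable instance (m : ℕ) : CStarAlgebra (CSph m) :=
  (ContinuousMap.instCStarAlgebra : CStarAlgebra C(Sph m, ℂ))

/-! ### Comparison with the construction of `K₀` used in the proof -/

section compare

variable {A : Type} [CStarAlgebra A]

theorem MvN.eqv {p q : Proj A} (h : MvN p q) : KT.Eqv p.mat q.mat := by
  obtain ⟨v, h1, h2⟩ := h
  have e1 : (p.mat * v) * (p.mat * v)ᴴ = p.mat := by
    rw [conjTranspose_mul, p.selfAdj, Matrix.mul_assoc, ← Matrix.mul_assoc v, h1, p.idem, p.idem]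
  have e2 : (p.mat * v)ᴴ * (p.mat * v) = q.mat := by
    have e : (p.mat * v)ᴴ * (p.mat * v) = (vᴴ * v) * (vᴴ * v) := by
      rw [conjTranspose_mul, p.selfAdj, Matrix.mul_assoc, ← Matrix.mul_assoc p.mat, p.idem, ← h1]
      simp only [Matrix.mul_assoc]
    rw [e, h2, q.idem]
  refine ⟨p.mat * v, e1, e2, ?_⟩
  rw [e1, ← Matrix.mul_assoc, p.idem]

theorem MvN.of_eqv {p q : Proj A} (h : KT.Eqv p.mat q.mat) : MvN p q := by
  obtain ⟨v, h1, h2, -⟩ := h
  exact ⟨v, h1, h2⟩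

theorem cls_eq_of_MvN {p q : Proj A} (h : MvN p q) : cls p = cls q := by
  apply (QuotientAddGroup.eq_iff_sub_mem (N := K0Rel A)).2
  exact AddSubgroup.subset_closure (Or.inl ⟨p, q, h, rfl⟩)

theorem cls_dsum (p q : Proj A) : cls (dsum p q) = cls p + cls q := by
  have h : FreeAbelianGroup.of (dsum p q) - (FreeAbelianGroup.of p + FreeAbelianGroup.of q)
      ∈ K0Rel A := AddSubgroup.subset_closure (Or.inr ⟨p, q, rfl⟩)
  exact (QuotientAddGroup.eq_iff_sub_mem (N := K0Rel A)).2 h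

/-- the comparison map -/
noncomputable def toOld (A : Type) [CStarAlgebra A] : K0 A →+ KT.K0 A :=
  QuotientAddGroup.lift (K0Rel A) (FreeAbelianGroup.lift fun p : Proj A => KT.kcl p.mat) (by
    unfold K0Rel
    rw [AddSubgroup.closure_le]
    rintro x (⟨p, q, h, rfl⟩ | ⟨p, q, rfl⟩)
    · change FreeAbelianGroup.lift (fun p : Proj A => KT.kcl p.mat) _ = 0
      rw [map_sub, FreeAbelianGroup.lift_apply_of, FreeAbelianGroup.lift_apply_of, h.eqv.kcl_eq,
        sub_self]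
    · change FreeAbelianGroup.lift (fun p : Proj A => KT.kcl p.mat) _ = 0
      rw [map_sub, map_add, FreeAbelianGroup.lift_apply_of, FreeAbelianGroup.lift_apply_of,
        FreeAbelianGroup.lift_apply_of]
      have h1 : KT.kcl (dsum p q).mat = KT.kcl p.mat + KT.kcl q.mat := by
        have hp : KT.IsPr p.mat := ⟨p.idem, p.selfAdj⟩
        have hq : KT.IsPr q.mat := ⟨q.idem, q.selfAdj⟩
        change KT.kcl ((Matrix.fromBlocks p.mat 0 0 q.mat).submatrix finSumFinEquiv.symm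
          finSumFinEquiv.symm) = _
        rw [KT.kcl_submatrix (hp.fromBlocks hq), KT.kcl_fromBlocks hp hq]
      rw [h1, sub_self])

theorem toOld_cls (p : Proj A) : toOld A (cls p) = KT.kcl p.mat := by
  change QuotientAddGroup.lift (K0Rel A) _ _ (QuotientAddGroup.mk (FreeAbelianGroup.of p)) = _
  rw [QuotientAddGroup.lift_mk, FreeAbelianGroup.lift_apply_of]

/-- the inverse, on classes -/
noncomputable def ofV (A : Type) [CStarAlgebra A] : KT.V A →+ K0 A where
  toFun := Quotient.lift (fun P : KT.PMat A => cls ⟨P.n, P.mat, P.isPr.1, P.isPr.2⟩)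
    (fun P Q h => cls_eq_of_MvN (MvN.of_eqv h))
  map_zero' := by
    change cls (⟨_, _, _, _⟩ : Proj A) = 0
    have h : ∀ p : Proj A, p.mat = 0 → cls p = 0 := by
      intro p hp
      have h1 := cls_dsum p p
      have h2 : cls (dsum p p) = cls p := by
        apply cls_eq_of_MvN
        refine ⟨0, ?_, ?_⟩
        · change _ = blk p.mat p.mat
          rw [hp, blk, Matrix.fromBlocks_zero]
          simp
          rfl
        · rw [hp]; simp
      rw [h2] at h1
      exact left_eq_add.1 h1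
    apply h
    change Matrix.submatrix 0 _ _ = 0
    rfl
  map_add' := by
    intro a b
    induction a using Quotient.inductionOn with
    | h P =>
      induction b using Quotient.inductionOn with
      | h Q =>
        change cls (⟨_, _, _, _⟩ : Proj A) = cls (⟨_, _, _, _⟩ : Proj A) + cls (⟨_, _, _, _⟩ : Proj A)
        rw [← cls_dsum]
        apply cls_eq_of_MvN
        apply MvN.of_eqv
        refine KT.Eqv.trans (KT.PMat.eqv_of _ (P.isPr.fromBlocks Q.isPr)).symm ?_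
        exact KT.Eqv.submatrix_equiv (P.isPr.fromBlocks Q.isPr) finSumFinEquiv.symm

/-- the inverse comparison map -/
noncomputable def ofOld (A : Type) [CStarAlgebra A] : KT.K0 A →+ K0 A := KT.GG.lift (ofV A)

theorem ofOld_kcl (p : Proj A) : ofOld A (KT.kcl p.mat) = cls p := by
  have hp : KT.IsPr p.mat := ⟨p.idem, p.selfAdj⟩
  rw [KT.kcl_def hp, ofOld, KT.GG.lift_of]
  change cls (⟨_, _, _, _⟩ : Proj A) = cls p
  apply cls_eq_of_MvN
  apply MvN.of_eqv
  exact (KT.PMat.eqv_of p.mat hp).symm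

/-- the quotient map -/
noncomputable def mkHom (A : Type) [CStarAlgebra A] : FreeAbelianGroup (Proj A) →+ K0 A :=
  (QuotientAddGroup.mk' (K0Rel A) : _ →+ (FreeAbelianGroup (Proj A) ⧸ K0Rel A))

theorem ofOld_toOld (x : K0 A) : ofOld A (toOld A x) = x := by
  have h : (ofOld A).comp ((toOld A).comp (mkHom A)) = mkHom A := by
    apply FreeAbelianGroup.lift_ext
    intro p
    change ofOld A (toOld A (cls p)) = cls p
    rw [toOld_cls, ofOld_kcl]
  obtain ⟨y, rfl⟩ := QuotientAddGroup.mk_surjective x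
  exact DFunLike.congr_fun h y

theorem toOld_ofOld (x : KT.K0 A) : toOld A (ofOld A x) = x := by
  obtain ⟨n, p, q, hp, hq, rfl⟩ := KT.exists_kcl_sub x
  rw [map_sub, map_sub]
  have h1 := ofOld_kcl (⟨n, p, hp.1, hp.2⟩ : Proj A)
  have h2 := ofOld_kcl (⟨n, q, hq.1, hq.2⟩ : Proj A)
  rw [h1, h2, toOld_cls, toOld_cls]

end compare

open KT in
theorem quant : QuantStmt := fun d hd => exists_quant d hd

open KT in
theorem quant2 : QuantStmt2 := by
  obtain ⟨A, h1, h2, h3, -⟩ := exists_quant 2 le_rfl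
  refine ⟨A, h1, fun n => ?_, ?_⟩
  · rw [h2]; simp
  · have e : (fun n : ℕ => (n + 2).choose (2 - 1)) = fun n => n + 2 := by
      funext n; simp
    rw [e] at h3
    exact h3

open KT in
theorem isCorner (𝒟 : AlgData) (i : ℕ) : IsCorner (𝒟.D i) := by
  classical
  set e := Fintype.equivFin (KK i) with he
  let Φ : 𝒟.D i →⋆ₙₐ[ℂ]
      Matrix (Fin (Fintype.card (KK i))) (Fin (Fintype.card (KK i))) C(XX, ℂ) :=
    { toFun := fun d => (𝒟.Ψ i d).submatrix e.symm e.symm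
      map_smul' := fun c d => by
        rw [map_smul]
        rfl
      map_zero' := by
        rw [map_zero]
        rfl
      map_add' := fun c d => by
        rw [map_add]
        rfl
      map_mul' := fun c d => by
        rw [map_mul]
        exact (Matrix.submatrix_mul_equiv _ _ _ _ _).symm
      map_star' := fun c => by
        rw [map_star]
        rfl }
  have hΦ : ∀ d, Φ d = (𝒟.Ψ i d).submatrix e.symm e.symm := fun d => rfl
  have hsub : ∀ M : Matrix (KK i) (KK i) C(XX, ℂ),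
      (M.submatrix e.symm e.symm).submatrix e e = M := by
    intro M
    ext1 r s
    simp [Matrix.submatrix_apply]
  have hsub' : ∀ M : Matrix (Fin (Fintype.card (KK i))) (Fin (Fintype.card (KK i))) C(XX, ℂ),
      (M.submatrix e e).submatrix e.symm e.symm = M := by
    intro M
    ext1 r s
    simp [Matrix.submatrix_apply]
  refine ⟨XX, inferInstance, Fintype.card (KK i), (𝒟.Ψ i 1).submatrix e.symm e.symm, Φ,
    inferInstance, inferInstance, ?_, ?_, ?_, ?_⟩
  · rw [Matrix.submatrix_mul_equiv, ← map_mul, mul_one]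
  · rw [Matrix.star_eq_conjTranspose, Matrix.conjTranspose_submatrix,
      ← Matrix.star_eq_conjTranspose, ← map_star, star_one]
  · intro c d h
    apply 𝒟.Ψ_inj i
    rw [hΦ, hΦ] at h
    rw [← hsub (𝒟.Ψ i c), ← hsub (𝒟.Ψ i d), h]
  · ext M
    constructor
    · rintro ⟨d, rfl⟩
      change (𝒟.Ψ i 1).submatrix e.symm e.symm * Φ d * (𝒟.Ψ i 1).submatrix e.symm e.symm = Φ d
      rw [hΦ, Matrix.submatrix_mul_equiv, Matrix.submatrix_mul_equiv, ← map_mul, ← map_mul,
        one_mul, mul_one]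
    · intro hM
      have h1 : 𝒟.Ψ i 1 * (M.submatrix e e) * 𝒟.Ψ i 1 = M.submatrix e e := by
        have h2 : ((𝒟.Ψ i 1).submatrix e.symm e.symm * M
            * (𝒟.Ψ i 1).submatrix e.symm e.symm).submatrix e e = M.submatrix e e :=
          congrArg (fun N => Matrix.submatrix N e e) hM
        rw [← Matrix.submatrix_mul_equiv _ _ e e e, ← Matrix.submatrix_mul_equiv _ _ e e e,
          hsub] at h2
        exact h2
      obtain ⟨d, hd⟩ := 𝒟.Ψ_range i _ h1
      refine ⟨d, ?_⟩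
      rw [hΦ, hd, hsub']

open KT in
theorem isAH (𝒟 : AlgData) : IsAH 𝒟.A := by
  refine ⟨𝒟.D, 𝒟.mono, ?_, isCorner 𝒟⟩
  rw [Metric.dense_iff]
  intro a ε hε
  obtain ⟨i, d, hd, hlt⟩ := 𝒟.dense a ε hε
  refine ⟨d, ?_, Set.mem_iUnion.2 ⟨i, hd⟩⟩
  rw [Metric.mem_ball, dist_comm, dist_eq_norm]
  exact hlt

open KT in
theorem exists_beta_alpha (𝒟 : AlgData) : ∃ α : KT.K0 C(S4, ℂ) →+ KT.K0 𝒟.A,
    Function.Injective α ∧
    (∀ (k : ℕ) (p : Matrix (Fin k) (Fin k) C(S4, ℂ)), IsPr p → ∃ (l : ℕ)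
      (q : Matrix (Fin l) (Fin l) 𝒟.A), IsPr q ∧ α (kcl p) = kcl q) ∧
    α (kcl (1 : Matrix (Fin 1) (Fin 1) C(S4, ℂ))) = kcl (1 : Matrix (Fin 1) (Fin 1) 𝒟.A) ∧
    ∀ φ : C(S4, ℂ) →⋆ₐ[ℂ] 𝒟.A, α (kcl pB) ≠ kcl (pB.map φ) := by
  obtain ⟨β, hβ, hβpos⟩ := exists_beta quant
  refine ⟨(K0.map 𝒟.emb).comp β, ?_, ?_, ?_, ?_⟩
  · rw [injective_iff_map_eq_zero]
    intro x hx
    obtain ⟨m, k, rfl⟩ := K0_S4_span quant x
    rw [AddMonoidHom.comp_apply, hβ] at hx
    obtain ⟨rfl, rfl⟩ := emb_inj 𝒟 quant2 m k hx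
    simp
  · rintro k p hp
    obtain ⟨n', p', hp', h⟩ := hβpos k p hp
    exact ⟨n', p'.map 𝒟.emb, hp'.map 𝒟.emb, by
      rw [AddMonoidHom.comp_apply, h, K0.map_kcl 𝒟.emb hp']⟩
  · have h1 := hβ 1 0
    rw [Int.cast_one, Int.cast_zero, zero_mul, add_zero, Int.cast_one, Int.cast_zero, zero_mul,
      add_zero, one_eq_kcl, one_eq_kcl] at h1
    rw [AddMonoidHom.comp_apply, h1, K0.map_kcl 𝒟.emb IsPr.one, one_map']
  · intro φ hφ
    apply no_hom quant quant2 𝒟 φ
    have h1 := hβ 2 1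
    have h2 : ((2 : ℤ) : KT.K0 C(S4, ℂ)) + ((1 : ℤ) : KT.K0 C(S4, ℂ)) * (kcl pB - 2) = kcl pB := by
      push_cast
      ring
    have h3 : ((2 : ℤ) : KT.K0 C(XX, ℂ)) + ((1 : ℤ) : KT.K0 C(XX, ℂ)) * (kcl LL - 1)
        = kcl (1 : Matrix (Fin 1) (Fin 1) C(XX, ℂ)) + kcl LL := by
      rw [← one_eq_kcl]
      push_cast
      ring
    rw [h2, h3] at h1
    rw [AddMonoidHom.comp_apply, h1, map_add, K0.map_kcl 𝒟.emb IsPr.one, one_map',
      K0.map_kcl 𝒟.emb LL_pr] at hφ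
    rw [K0.map_kcl φ pB_pr]
    exact hφ.symm

theorem cls_mem_pos {A : Type} [CStarAlgebra A] (p : Proj A) : cls p ∈ K0Pos A := by
  have h0 : cls (dsum p ⟨1, 0, mul_zero 0, conjTranspose_zero⟩) = cls p := by
    apply cls_eq_of_MvN
    apply MvN.of_eqv
    have hp : KT.IsPr p.mat := ⟨p.idem, p.selfAdj⟩
    have hz : KT.IsPr (0 : Matrix (Fin 1) (Fin 1) A) := KT.IsPr.zero
    exact (KT.Eqv.submatrix_equiv (hp.fromBlocks hz) finSumFinEquiv.symm).symm.trans
      ((KT.Eqv.fromBlocks_comm hp hz).trans (KT.Eqv.fromBlocks_zero hp))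
  exact ⟨_, Nat.le_add_left 1 p.n, h0.symm⟩

open KT in
theorem exists_alpha (𝒟 : AlgData) : ∃ α : K0 (CSph 4) →+ K0 𝒟.A,
    IsUnitalOrderedEmb α ∧ ¬ IsInduced α := by
  obtain ⟨α, h1, h2, h3, h4⟩ := exists_beta_alpha 𝒟
  let α' : KT.K0 (CSph 4) →+ KT.K0 𝒟.A := α
  refine ⟨((ofOld 𝒟.A).comp α').comp (toOld (CSph 4)), ⟨?_, ?_, ?_⟩, ?_⟩
  · intro x y hxy
    have hxy' := congrArg (toOld 𝒟.A) hxy
    simp only [AddMonoidHom.comp_apply] at hxy'
    rw [toOld_ofOld, toOld_ofOld] at hxy'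
    have := congrArg (ofOld (CSph 4)) (h1 hxy')
    rwa [ofOld_toOld, ofOld_toOld] at this
  · rintro x ⟨p, -, rfl⟩
    obtain ⟨l, q, hq, hpq⟩ := h2 p.n p.mat ⟨p.idem, p.selfAdj⟩
    have e : ((ofOld 𝒟.A).comp α').comp (toOld (CSph 4)) (cls p) = cls ⟨l, q, hq.1, hq.2⟩ := by
      rw [AddMonoidHom.comp_apply, AddMonoidHom.comp_apply, toOld_cls]
      refine Eq.trans (congrArg (ofOld 𝒟.A) hpq) ?_
      exact ofOld_kcl (⟨l, q, hq.1, hq.2⟩ : Proj 𝒟.A)
    rw [e]
    exact cls_mem_pos _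
  · rw [AddMonoidHom.comp_apply, AddMonoidHom.comp_apply, toOld_cls]
    refine Eq.trans (congrArg (ofOld 𝒟.A) h3) ?_
    exact ofOld_kcl (oneProj 𝒟.A)
  · rintro ⟨φ, hφ⟩
    let b : Proj (CSph 4) := ⟨4, pB, pB_pr.1, pB_pr.2⟩
    have h5 := congrArg (toOld 𝒟.A) (hφ b)
    rw [AddMonoidHom.comp_apply, AddMonoidHom.comp_apply, toOld_cls, toOld_cls, toOld_ofOld] at h5
    exact h4 φ h5

/-- **The theorem.** There are a simple unital AH algebra `A`, an integer `n ≥ 1` (namely `2`) and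
an injective homomorphism of ordered groups `α : K₀(C(S^{2n})) → K₀(A)` with `α[1] = [1_A]` such
that no unital `*`-homomorphism `φ : C(S^{2n}) → A` induces `α`. -/
theorem result : ∃ (A : Type) (_ : CStarAlgebra A), IsSimple A ∧ IsAH A ∧
    ∃ n : ℕ, 1 ≤ n ∧ ∃ α : K0 (CSph (2 * n)) →+ K0 A, IsUnitalOrderedEmb α ∧ ¬ IsInduced α := by
  obtain ⟨𝒟⟩ := KT.exists_algData
  exact ⟨𝒟.A, 𝒟.cs, 𝒟.simple, isAH 𝒟, 2, by norm_num, exists_alpha 𝒟⟩

end Pool.Agent.Results.MP_0ce5f1_an.SimpleAHNoLift
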